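import Mathlib
import Pool.Agent.Q220.Tree.Galton

/-!
# Two-length oriented percolation on the `d`-ary tree: the critical curve is not concave near `0`

For all `d ≥ 2` and `k ≥ 2` and every `δ > 0` the critical curve `p ↦ q_c(p)` is not concave on
`[0, δ]`, however small `δ` is.

Proof. Let `w_m` be the mean number of vertices of generation `m` in the cluster of the root. The
recursion for the probability that a given vertex is reached gives, after summation over `m`, that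
`w_m > 1` for some `m` as soon as `p d + q d ^ k > 1 + C p ^ 2`; then an embedded branching process
survives. Hence `q_c(p) ≤ (1 - p d) / d ^ k + O(p ^ 2)`. On the other hand
`q_c(p) ≥ (1 - p d) / (d ^ k (1 - p ^ k)) > (1 - p d) / d ^ k`: the curve starts with slope at most
`-d / d ^ k` and is strictly above the line of slope `-d / d ^ k`.
-/

set_option autoImplicit false

open Pool.Agent.Q220.Tree

namespace Pool.Agent.Results.MP_ea7c0e_pr.NotConcaveAtZero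

variable {d k : ℕ}

theorem theta_eq_zero (hd : 2 ≤ d) (hk : 2 ≤ k) (p q : unitInterval)
    (h : (p : ℝ) * d + q * (d : ℝ) ^ k * (1 - (p : ℝ) ^ k) < 1) : theta d k p q = 0 :=
  die p q hd hk (W_bounded p q d hk h)

theorem theta_pos (hd : 2 ≤ d) (hk : 2 ≤ k) (p q : unitInterval)
    (hb : (q : ℝ) * (d : ℝ) ^ k ≤ 3 / 2)
    (h : 1 < (p : ℝ) * d + q * (d : ℝ) ^ k - 4 * (p : ℝ) ^ 2 * (q * (d : ℝ) ^ k)) :
    0 < theta d k p q := by
  obtain ⟨m, hm, hw⟩ := exists_w_gt p q d hk hd hb h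
  exact survive p q hd hk m hm hw

theorem qc_le (hd : 2 ≤ d) (hk : 2 ≤ k) (p : ℝ) (hp0 : 0 < p) (hp : p ≤ 1 / (2 * d)) :
    ∃ q : ℝ, q = (1 - p * d + 7 * p ^ 2) / (d : ℝ) ^ k ∧ ∃ (hp : p ∈ unitInterval)
      (hq : q ∈ Set.Ioo (0 : ℝ) 1), 0 < theta d k ⟨p, hp⟩ ⟨q, Set.Ioo_subset_Icc_self hq⟩ := by
  have hd' : (2 : ℝ) ≤ d := by exact_mod_cast hd
  have hpd : p * d ≤ 1 / 2 := by
    rw [le_div_iff₀ (by positivity)] at hp
    linarith
  have hp4 : p ≤ 1 / 4 := by nlinarith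
  have hD : (2 : ℝ) ≤ (d : ℝ) ^ k := by
    calc (2 : ℝ) ≤ d := hd'
      _ = (d : ℝ) ^ 1 := (pow_one _).symm
      _ ≤ (d : ℝ) ^ k := pow_le_pow_right₀ (by linarith) (by omega)
  have hD0 : (0 : ℝ) < (d : ℝ) ^ k := by linarith
  have hb1 : 1 - p * d + 7 * p ^ 2 ≤ 1 := by nlinarith
  have hb0 : 1 / 2 ≤ 1 - p * d + 7 * p ^ 2 := by nlinarith [sq_nonneg p]
  have hpI : p ∈ unitInterval := ⟨hp0.le, by linarith⟩
  have hqI : (1 - p * d + 7 * p ^ 2) / (d : ℝ) ^ k ∈ Set.Ioo (0 : ℝ) 1 := by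
    refine ⟨div_pos (by linarith) hD0, ?_⟩
    rw [div_lt_one hD0]
    linarith
  refine ⟨_, rfl, hpI, hqI, theta_pos hd hk _ _ ?_ ?_⟩
  · show (1 - p * d + 7 * p ^ 2) / (d : ℝ) ^ k * (d : ℝ) ^ k ≤ 3 / 2
    rw [div_mul_cancel₀ _ hD0.ne']
    linarith
  · show 1 < p * d + (1 - p * d + 7 * p ^ 2) / (d : ℝ) ^ k * (d : ℝ) ^ k
      - 4 * p ^ 2 * ((1 - p * d + 7 * p ^ 2) / (d : ℝ) ^ k * (d : ℝ) ^ k)
    rw [div_mul_cancel₀ _ hD0.ne']
    have h1 : 0 < p ^ 2 := by positivity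
    nlinarith

theorem qc_upper (hd : 2 ≤ d) (hk : 2 ≤ k) (p : ℝ) (hp0 : 0 < p) (hp : p ≤ 1 / (2 * d)) :
    qc d k p ≤ (1 - p * d + 7 * p ^ 2) / (d : ℝ) ^ k := by
  obtain ⟨q, hq, h⟩ := qc_le hd hk p hp0 hp
  rw [← hq]
  refine csInf_le ⟨0, ?_⟩ h
  rintro r ⟨_, hr, _⟩
  exact hr.1.le

theorem qc_lower (hd : 2 ≤ d) (hk : 2 ≤ k) (p : ℝ) (hp0 : 0 ≤ p) (hp : p ≤ 1 / (2 * d)) :
    (1 - p * d) / ((d : ℝ) ^ k * (1 - p ^ k)) ≤ qc d k p := by
  have hd' : (2 : ℝ) ≤ d := by exact_mod_cast hd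
  have hpd : p * d ≤ 1 / 2 := by
    rw [le_div_iff₀ (by positivity)] at hp
    linarith
  have hp4 : p ≤ 1 / 4 := by nlinarith
  have hD : (2 : ℝ) ≤ (d : ℝ) ^ k := by
    calc (2 : ℝ) ≤ d := hd'
      _ = (d : ℝ) ^ 1 := (pow_one _).symm
      _ ≤ (d : ℝ) ^ k := pow_le_pow_right₀ (by linarith) (by omega)
  have hD4 : (4 : ℝ) ≤ (d : ℝ) ^ k := by
    calc (4 : ℝ) = 2 ^ 2 := by norm_num
      _ ≤ (d : ℝ) ^ 2 := pow_le_pow_left₀ (by norm_num) hd' 2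
      _ ≤ (d : ℝ) ^ k := pow_le_pow_right₀ (by linarith) hk
  have hD0 : (0 : ℝ) < (d : ℝ) ^ k := by linarith
  have hpk : p ^ k ≤ 1 / 4 := by
    calc p ^ k ≤ p ^ 1 := pow_le_pow_of_le_one hp0 (by linarith) (by omega)
      _ ≤ 1 / 4 := by rw [pow_one]; exact hp4
  refine le_csInf ?_ ?_
  · rcases hp0.eq_or_lt with rfl | hp0
    · refine ⟨(5 / 4) / (d : ℝ) ^ k, by simp, ⟨by positivity, ?_⟩, theta_pos hd hk _ _ ?_ ?_⟩
      · rw [div_lt_one hD0]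
        linarith
      · show 5 / 4 / (d : ℝ) ^ k * (d : ℝ) ^ k ≤ 3 / 2
        rw [div_mul_cancel₀ _ hD0.ne']
        norm_num
      · show 1 < (0 : ℝ) * d + 5 / 4 / (d : ℝ) ^ k * (d : ℝ) ^ k
          - 4 * (0 : ℝ) ^ 2 * (5 / 4 / (d : ℝ) ^ k * (d : ℝ) ^ k)
        rw [div_mul_cancel₀ _ hD0.ne']
        norm_num
    · obtain ⟨q, _, h⟩ := qc_le hd hk p hp0 hp
      exact ⟨q, h⟩
  · rintro q ⟨hpI, hq, hpos⟩
    by_contra hlt
    push Not at hlt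
    rw [lt_div_iff₀ (mul_pos hD0 (by linarith))] at hlt
    have h0 := theta_eq_zero hd hk ⟨p, hpI⟩ ⟨q, Set.Ioo_subset_Icc_self hq⟩ (by
      show p * d + q * (d : ℝ) ^ k * (1 - p ^ k) < 1
      linarith)
    rw [h0] at hpos
    exact lt_irrefl _ hpos

/-- For all `d ≥ 2`, `k ≥ 2` and every `δ ∈ (0, 1]`, the critical curve `p ↦ q_c(p)` of two-length
oriented percolation on the `d`-ary tree is not concave on `[0, δ]`. -/
theorem result : ∀ d k : ℕ, 2 ≤ d → 2 ≤ k → ∀ δ : ℝ, 0 < δ → δ ≤ 1 →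
    ¬ ConcaveOn ℝ (Set.Icc 0 δ) (qc d k) := by
  intro d k hd hk δ hδ _ hconc
  have hd' : (2 : ℝ) ≤ d := by exact_mod_cast hd
  have hD0 : (0 : ℝ) < (d : ℝ) ^ k := by positivity
  set p : ℝ := min δ (1 / (2 * d)) with hp
  have hp0 : 0 < p := lt_min hδ (by positivity)
  have hpδ : p ≤ δ := min_le_left _ _
  have hpd' : p ≤ 1 / (2 * d) := min_le_right _ _
  have hpd : p * d ≤ 1 / 2 := by
    have h := hpd'
    rw [le_div_iff₀ (by positivity)] at h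
    linarith
  have hp4 : p ≤ 1 / 4 := by nlinarith
  have hpk : p ^ k ≤ 1 / 4 := by
    calc p ^ k ≤ p ^ 1 := pow_le_pow_of_le_one hp0.le (by linarith) (by omega)
      _ ≤ 1 / 4 := by rw [pow_one]; exact hp4
  have hpk0 : 0 < p ^ k := pow_pos hp0 k
  set c : ℝ := 1 / (d : ℝ) ^ k with hc
  have hc0 : 0 < c := by positivity
  set η : ℝ := (1 - p * d) * c * (p ^ k / (1 - p ^ k)) with hη
  have hη0 : 0 < η := by
    have h1 : 0 < 1 - p * d := by linarith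
    have h2 : 0 < 1 - p ^ k := by linarith
    positivity
  set t : ℝ := min 1 (η / (14 * p ^ 2 * c)) with ht
  have ht0 : 0 < t := lt_min one_pos (by positivity)
  have ht1 : t ≤ 1 := min_le_left _ _
  have htη : t * (14 * p ^ 2 * c) ≤ η := by
    have h : t ≤ η / (14 * p ^ 2 * c) := min_le_right _ _
    rwa [le_div_iff₀ (by positivity)] at h
  have hlow0 := qc_lower hd hk 0 le_rfl (by positivity)
  have hlowp := qc_lower hd hk p hp0.le hpd'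
  have hup := qc_upper hd hk (t * p) (mul_pos ht0 hp0) (by nlinarith)
  have hcc := hconc.2 (⟨le_rfl, hδ.le⟩ : (0 : ℝ) ∈ Set.Icc 0 δ)
    (⟨hp0.le, hpδ⟩ : p ∈ Set.Icc 0 δ) (by linarith : 0 ≤ 1 - t) ht0.le (by ring)
  simp only [smul_eq_mul, mul_zero, zero_add] at hcc
  have e0 : (1 - 0 * (d : ℝ)) / ((d : ℝ) ^ k * (1 - 0 ^ k)) = c := by
    rw [zero_pow (by omega), hc]
    ring
  have e1 : (1 - p * d) / ((d : ℝ) ^ k * (1 - p ^ k)) = (1 - p * d) * c + η := by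
    rw [hη, hc]
    have h2 : 1 - p ^ k ≠ 0 := by linarith
    field_simp
    ring
  have e2 : (1 - t * p * d + 7 * (t * p) ^ 2) / (d : ℝ) ^ k
      = (1 - t * p * d) * c + 7 * t ^ 2 * p ^ 2 * c := by
    rw [hc]
    ring
  rw [e0] at hlow0
  rw [e1] at hlowp
  rw [e2] at hup
  have h1 := mul_le_mul_of_nonneg_left hlow0 (by linarith : 0 ≤ 1 - t)
  have h2 := mul_le_mul_of_nonneg_left hlowp ht0.le
  have h3 : t * η ≤ 7 * t ^ 2 * p ^ 2 * c := by nlinarith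
  have h4 : t * (t * (14 * p ^ 2 * c)) ≤ t * η := mul_le_mul_of_nonneg_left htη ht0.le
  have h5 : 0 < t * η := mul_pos ht0 hη0
  nlinarith

end Pool.Agent.Results.MP_ea7c0e_pr.NotConcaveAtZero
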